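import Pool.Agent.TH21.MS.JDer

set_option autoImplicit false

/-!
Job J-MOB (project JI, owner helper120): the derivatives of the modular invariant at `γ z`.
-/

open Filter Topology UpperHalfPlane ModularForm EisensteinSeries

namespace Pool.Agent.Y508.J

open Pool.Agent.TH21.MS

theorem coe_smul_eq (γ : Matrix.SpecialLinearGroup (Fin 2) ℤ) (z : ℍ) :
    ((γ • z : ℍ) : ℂ) = ((γ 0 0 : ℂ) * z + γ 0 1) / ((γ 1 0 : ℂ) * z + γ 1 1) := by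
  rw [UpperHalfPlane.coe_specialLinearGroup_apply]
  simp

theorem den_ne (γ : Matrix.SpecialLinearGroup (Fin 2) ℤ) (z : ℍ) :
    (γ 1 0 : ℂ) * z + γ 1 1 ≠ 0 := by
  have h := UpperHalfPlane.denom_ne_zero (Matrix.SpecialLinearGroup.mapGL ℝ γ) z
  simpa [UpperHalfPlane.denom] using h

theorem inv4 (γ : Matrix.SpecialLinearGroup (Fin 2) ℤ) (z : ℍ) :
    E₄ (γ • z) = ((γ 1 0 : ℂ) * z + γ 1 1) ^ 4 * E₄ z := by
  have hγ : Matrix.SpecialLinearGroup.mapGL ℝ γ ∈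
      MonoidHom.range (Matrix.SpecialLinearGroup.mapGL (R := ℤ) (n := Fin 2) ℝ) := ⟨γ, rfl⟩
  have h := SlashInvariantForm.slash_action_eqn'' E₄ hγ z
  have h2 : (Matrix.SpecialLinearGroup.mapGL ℝ γ) • z = γ • z := rfl
  rw [h2] at h
  rw [h, show denom (Matrix.SpecialLinearGroup.mapGL ℝ γ) (z : ℂ) = (γ 1 0 : ℂ) * z + γ 1 1 from rfl]
  rfl

theorem inv6 (γ : Matrix.SpecialLinearGroup (Fin 2) ℤ) (z : ℍ) :
    E₆ (γ • z) = ((γ 1 0 : ℂ) * z + γ 1 1) ^ 6 * E₆ z := by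
  have hγ : Matrix.SpecialLinearGroup.mapGL ℝ γ ∈
      MonoidHom.range (Matrix.SpecialLinearGroup.mapGL (R := ℤ) (n := Fin 2) ℝ) := ⟨γ, rfl⟩
  have h := SlashInvariantForm.slash_action_eqn'' E₆ hγ z
  have h2 : (Matrix.SpecialLinearGroup.mapGL ℝ γ) • z = γ • z := rfl
  rw [h2] at h
  rw [h, show denom (Matrix.SpecialLinearGroup.mapGL ℝ γ) (z : ℂ) = (γ 1 0 : ℂ) * z + γ 1 1 from rfl]
  rfl

theorem jj_smul (γ : Matrix.SpecialLinearGroup (Fin 2) ℤ) (z : ℍ) :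
    jj ((γ • z : ℍ) : ℂ) = jj z := by
  unfold jj
  rw [E4_eq, E6_eq, inv4, inv6, ← E4_eq, ← E6_eq]
  have h := disc_ne z
  have hz := den_ne γ z
  set d : ℂ := (γ 1 0 : ℂ) * z + γ 1 1
  have h2 : (d ^ 4 * E4 z) ^ 3 - (d ^ 6 * E6 z) ^ 2 = d ^ 12 * (E4 z ^ 3 - E6 z ^ 2) := by ring
  rw [h2]
  field_simp

theorem mob_deriv (a b c d z : ℂ) (hdet : a * d - b * c = 1) (hz : c * z + d ≠ 0) :
    HasDerivAt (fun w : ℂ => (a * w + b) / (c * w + d)) (1 / (c * z + d) ^ 2) z := by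
  have h1 : HasDerivAt (fun w : ℂ => a * w + b) a z := by
    simpa using ((hasDerivAt_id z).const_mul a).add_const b
  have h2 : HasDerivAt (fun w : ℂ => c * w + d) c z := by
    simpa using ((hasDerivAt_id z).const_mul c).add_const d
  refine (h1.div h2 hz).congr_deriv ?_
  congr 1
  linear_combination hdet

theorem t_mob (γ : Matrix.SpecialLinearGroup (Fin 2) ℤ) (z : UpperHalfPlane) :
    Pool.Agent.TH21.MS.jj ((γ • z : UpperHalfPlane) : ℂ) = Pool.Agent.TH21.MS.jj z ∧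
    deriv Pool.Agent.TH21.MS.jj ((γ • z : UpperHalfPlane) : ℂ) =
      ((γ 1 0 : ℂ) * z + γ 1 1) ^ 2 * deriv Pool.Agent.TH21.MS.jj z ∧
    deriv (deriv Pool.Agent.TH21.MS.jj) ((γ • z : UpperHalfPlane) : ℂ) =
      ((γ 1 0 : ℂ) * z + γ 1 1) ^ 4 * deriv (deriv Pool.Agent.TH21.MS.jj) z +
      2 * (γ 1 0 : ℂ) * ((γ 1 0 : ℂ) * z + γ 1 1) ^ 3 * deriv Pool.Agent.TH21.MS.jj z ∧
    ((γ • z : UpperHalfPlane) : ℂ) =
      ((γ 0 0 : ℂ) * z + γ 0 1) / ((γ 1 0 : ℂ) * z + γ 1 1) ∧ (γ 1 0 : ℂ) * z + γ 1 1 ≠ 0 := by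
  have hdet : (γ 0 0 : ℂ) * γ 1 1 - γ 0 1 * γ 1 0 = 1 := by
    have h := γ.det_coe
    rw [Matrix.det_fin_two] at h
    exact_mod_cast h
  set m : ℂ → ℂ := fun w => ((γ 0 0 : ℂ) * w + γ 0 1) / ((γ 1 0 : ℂ) * w + γ 1 1) with hm
  have hden : ∀ w : ℂ, 0 < w.im → (γ 1 0 : ℂ) * w + γ 1 1 ≠ 0 := fun w hw => den_ne γ ⟨w, hw⟩
  have hmz : ∀ w : ℂ, (hw : 0 < w.im) → m w = ((γ • (⟨w, hw⟩ : ℍ) : ℍ) : ℂ) := fun w hw =>
    (coe_smul_eq γ ⟨w, hw⟩).symm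
  have hmim : ∀ w : ℂ, 0 < w.im → 0 < (m w).im := fun w hw => by
    rw [hmz w hw]; exact (γ • (⟨w, hw⟩ : ℍ) : ℍ).im_pos
  have hmd : ∀ w : ℂ, 0 < w.im → HasDerivAt m (1 / ((γ 1 0 : ℂ) * w + γ 1 1) ^ 2) w := fun w hw =>
    mob_deriv _ _ _ _ w hdet (hden w hw)
  have hopen : ∀ w : ℂ, 0 < w.im → ∀ᶠ w' in 𝓝 w, 0 < w'.im := fun w hw =>
    (Complex.continuous_im.continuousAt).eventually_const_lt hw
  have h0 : ∀ w : ℂ, 0 < w.im → jj (m w) = jj w := fun w hw => by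
    rw [hmz w hw]; exact jj_smul γ ⟨w, hw⟩
  -- first derivative
  have h1 : ∀ w : ℂ, 0 < w.im → deriv jj (m w) = ((γ 1 0 : ℂ) * w + γ 1 1) ^ 2 * deriv jj w := by
    intro w hw
    have e1 : HasDerivAt jj (deriv jj (m w)) (m w) := (jj_an _ (hmim w hw)).differentiableAt.hasDerivAt
    have e2 := e1.comp w (hmd w hw)
    have e3 : (jj ∘ m) =ᶠ[𝓝 w] jj := by
      filter_upwards [hopen w hw] with w' hw' using h0 w' hw'
    have e4 : HasDerivAt jj (deriv jj w) w := (jj_an _ hw).differentiableAt.hasDerivAt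
    have e5 := (e2.congr_of_eventuallyEq e3.symm).unique e4
    have hd := hden w hw
    rw [← e5]
    field_simp
  have h2 : ∀ w : ℂ, 0 < w.im → deriv (deriv jj) (m w) =
      ((γ 1 0 : ℂ) * w + γ 1 1) ^ 4 * deriv (deriv jj) w +
      2 * (γ 1 0 : ℂ) * ((γ 1 0 : ℂ) * w + γ 1 1) ^ 3 * deriv jj w := by
    intro w hw
    have e1 : HasDerivAt (deriv jj) (deriv (deriv jj) (m w)) (m w) :=
      (jj_an _ (hmim w hw)).deriv.differentiableAt.hasDerivAt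
    have e2 := e1.comp w (hmd w hw)
    have e3 : (deriv jj ∘ m) =ᶠ[𝓝 w] fun w' => ((γ 1 0 : ℂ) * w' + γ 1 1) ^ 2 * deriv jj w' := by
      filter_upwards [hopen w hw] with w' hw' using h1 w' hw'
    have e4 : HasDerivAt (deriv jj) (deriv (deriv jj) w) w :=
      (jj_an _ hw).deriv.differentiableAt.hasDerivAt
    have e6 : HasDerivAt (fun w' : ℂ => ((γ 1 0 : ℂ) * w' + γ 1 1) ^ 2)
        (2 * ((γ 1 0 : ℂ) * w + γ 1 1) * (γ 1 0 : ℂ)) w := by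
      have h2 : HasDerivAt (fun w : ℂ => (γ 1 0 : ℂ) * w + γ 1 1) (γ 1 0 : ℂ) w := by
        simpa using ((hasDerivAt_id w).const_mul (γ 1 0 : ℂ)).add_const (γ 1 1 : ℂ)
      simpa using h2.fun_pow 2
    have e7 := e6.mul e4
    have e5 := (e2.congr_of_eventuallyEq e3.symm).unique e7
    have hd := hden w hw
    have e8 : deriv (deriv jj) (m w) = ((γ 1 0 : ℂ) * w + γ 1 1) ^ 2 *
        (deriv (deriv jj) (m w) * (1 / ((γ 1 0 : ℂ) * w + γ 1 1) ^ 2)) := by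
      field_simp
    rw [e8, e5]
    ring
  have hz := z.im_pos
  have hmz' : m (z : ℂ) = ((γ • z : ℍ) : ℂ) := (coe_smul_eq γ z).symm
  refine ⟨jj_smul γ z, ?_, ?_, coe_smul_eq γ z, den_ne γ z⟩
  · rw [← hmz']; exact h1 z hz
  · rw [← hmz']; exact h2 z hz

end Pool.Agent.Y508.J
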