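import Pool.Agent.TH21.MS.Nome
import Pool.Agent.Y120.J.Defs

set_option autoImplicit false

/-!
Job J-ZD (project JI, owner helper120): the points `(1 / j, i j' / j, - y j' / j, ...)` of the
imaginary axis are Zariski dense.
-/

open Filter Topology Polynomial

namespace Pool.Agent.Y508.J

open Pool.Agent.TH21.MS

/-- the real relation, cleared of denominators, as a polynomial in `j, j', j''` over the polynomials
in `y` -/
noncomputable def QZ (S : Finset (Fin 4 →₀ ℕ)) (d : (Fin 4 →₀ ℕ) → ℝ) (N : ℕ) :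
    MvPolynomial (Unit ⊕ (Fin 1 × Fin 3)) ℝ[X] :=
  ∑ e ∈ S, MvPolynomial.C (Polynomial.C (d e) * X ^ (e 2)) *
    MvPolynomial.X (Sum.inr (0, 0)) ^ (N - e 0 - e 1 - e 2 - e 3) *
    MvPolynomial.X (Sum.inr (0, 1)) ^ (N + e 1 + e 2 - e 3) *
    (MvPolynomial.X (Sum.inr (0, 1)) ^ 2 -
      MvPolynomial.X (Sum.inr (0, 2)) * MvPolynomial.X (Sum.inr (0, 0))) ^ (e 3)

theorem QZ_eval (S : Finset (Fin 4 →₀ ℕ)) (d : (Fin 4 →₀ ℕ) → ℝ) (N : ℕ) (t : ℝ)
    (v : Unit ⊕ (Fin 1 × Fin 3) → ℝ) :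
    MvPolynomial.eval₂ (evalRingHom t) v (QZ S d N) =
      ∑ e ∈ S, d e * t ^ (e 2) * v (Sum.inr (0, 0)) ^ (N - e 0 - e 1 - e 2 - e 3) *
        v (Sum.inr (0, 1)) ^ (N + e 1 + e 2 - e 3) *
        (v (Sum.inr (0, 1)) ^ 2 - v (Sum.inr (0, 2)) * v (Sum.inr (0, 0))) ^ (e 3) := by
  unfold QZ
  rw [← MvPolynomial.coe_eval₂Hom, map_sum]
  refine Finset.sum_congr rfl fun e _ => ?_
  simp only [map_mul, map_pow, map_sub, MvPolynomial.eval₂Hom_X', MvPolynomial.eval₂Hom_C,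
    coe_evalRingHom, eval_C, eval_X]

/-- the monomials, multiplied by the common denominator -/
theorem term_eq (a0 a1 a2 t : ℝ) (h0 : a0 ≠ 0) (h1 : a1 ≠ 0) (N e0 e1 e2 e3 : ℕ)
    (hN : e0 + e1 + e2 + e3 ≤ N) :
    t ^ e2 * a0 ^ (N - e0 - e1 - e2 - e3) * a1 ^ (N + e1 + e2 - e3) * (a1 ^ 2 - a2 * a0) ^ e3 =
      a0 ^ N * a1 ^ N * ((1 / a0) ^ e0 * (a1 / a0) ^ e1 * (t * a1 / a0) ^ e2 *
        (a1 / a0 - a2 / a1) ^ e3) := by
  have e : a1 / a0 - a2 / a1 = (a1 ^ 2 - a2 * a0) / (a0 * a1) := by field_simp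
  rw [e]
  have hA : a0 ^ N = a0 ^ (N - e0 - e1 - e2 - e3) * a0 ^ e0 * a0 ^ e1 * a0 ^ e2 * a0 ^ e3 := by
    rw [← pow_add, ← pow_add, ← pow_add, ← pow_add]
    congr 1
    omega
  have hB : a1 ^ (N + e1 + e2 - e3) * a1 ^ e3 = a1 ^ N * a1 ^ e1 * a1 ^ e2 := by
    rw [← pow_add, ← pow_add, ← pow_add]
    congr 1
    omega
  rw [hA, div_pow, div_pow, div_pow, div_pow, one_pow, mul_pow, mul_pow]
  have p1 : a1 ^ e3 ≠ 0 := pow_ne_zero _ h1
  apply mul_right_cancel₀ p1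
  calc t ^ e2 * a0 ^ (N - e0 - e1 - e2 - e3) * a1 ^ (N + e1 + e2 - e3) *
        (a1 ^ 2 - a2 * a0) ^ e3 * a1 ^ e3 =
      t ^ e2 * a0 ^ (N - e0 - e1 - e2 - e3) * (a1 ^ (N + e1 + e2 - e3) * a1 ^ e3) *
        (a1 ^ 2 - a2 * a0) ^ e3 := by ring
    _ = t ^ e2 * a0 ^ (N - e0 - e1 - e2 - e3) * (a1 ^ N * a1 ^ e1 * a1 ^ e2) *
        (a1 ^ 2 - a2 * a0) ^ e3 := by rw [hB]
    _ = _ := by field_simp

theorem real_zero (S : Finset (Fin 4 →₀ ℕ)) (d : (Fin 4 →₀ ℕ) → ℝ)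
    (h : ∀ᶠ y in atTop, ∑ e ∈ S, d e * ((1 / g0 y) ^ (e 0) * (g1 y / g0 y) ^ (e 1) *
      (y * g1 y / g0 y) ^ (e 2) * (g1 y / g0 y - g2 y / g1 y) ^ (e 3)) = 0) :
    ∀ e ∈ S, d e = 0 := by
  obtain ⟨hh, hLB⟩ := LB_uM
  obtain ⟨N, hN⟩ : ∃ N : ℕ, ∀ e ∈ S, e 0 + e 1 + e 2 + e 3 ≤ N :=
    ⟨S.sup (fun e => e 0 + e 1 + e 2 + e 3), fun e he =>
      Finset.le_sup (f := fun e : Fin 4 →₀ ℕ => e 0 + e 1 + e 2 + e 3) he⟩
  have hne : ∀ i : Fin 3, ∀ᶠ t in atTop, uM (Sum.inr (0, i)) t ≠ 0 := by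
    intro i
    obtain ⟨C, hC⟩ := hLB (MvPolynomial.X (Sum.inr (0, i))) (MvPolynomial.X_ne_zero _)
    filter_upwards [hC] with t ht h0
    unfold ev at ht
    rw [MvPolynomial.eval₂_X] at ht
    rw [h0, abs_zero] at ht
    exact absurd ht (not_le.2 (Real.exp_pos _))
  have hval : ∀ᶠ t in atTop, ev uM (QZ S d N) t = 0 := by
    filter_upwards [h, hne 0, hne 1] with t ht h0 h1
    unfold ev
    rw [QZ_eval]
    have hV0 : uM (Sum.inr (0, 0)) t = g0 t := rfl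
    have hV1 : uM (Sum.inr (0, 1)) t = g1 t := rfl
    have hV2 : uM (Sum.inr (0, 2)) t = g2 t := rfl
    rw [hV0] at h0
    rw [hV1] at h1
    rw [hV0, hV1, hV2]
    have hs : ∑ e ∈ S, d e * t ^ (e 2) * g0 t ^ (N - e 0 - e 1 - e 2 - e 3) *
        g1 t ^ (N + e 1 + e 2 - e 3) * (g1 t ^ 2 - g2 t * g0 t) ^ (e 3) =
        g0 t ^ N * g1 t ^ N * ∑ e ∈ S, d e * ((1 / g0 t) ^ (e 0) * (g1 t / g0 t) ^ (e 1) *
          (t * g1 t / g0 t) ^ (e 2) * (g1 t / g0 t - g2 t / g1 t) ^ (e 3)) := by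
      rw [Finset.mul_sum]
      refine Finset.sum_congr rfl fun e he => ?_
      have hh := term_eq (g0 t) (g1 t) (g2 t) t h0 h1 N (e 0) (e 1) (e 2) (e 3) (hN e he)
      linear_combination (d e) * hh
    rw [hs, ht, mul_zero]
  have hQ : QZ S d N = 0 := by
    by_contra hne
    obtain ⟨C, hC⟩ := hLB _ hne
    obtain ⟨t, ht1, ht2⟩ := (hC.and hval).exists
    rw [ht2, abs_zero] at ht1
    exact absurd ht1 (not_le.2 (Real.exp_pos _))
  -- the polynomial with the coefficients `d e` vanishes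
  have hR : (∑ e ∈ S, MvPolynomial.monomial e (d e) : MvPolynomial (Fin 4) ℝ) = 0 := by
    refine MvPolynomial.funext_set ![Set.Ioi 0, Set.Ioi 0, Set.univ, Set.univ] ?_ ?_
    · intro i
      fin_cases i
      · exact Set.Ioi_infinite 0
      · exact Set.Ioi_infinite 0
      · exact Set.infinite_univ
      · exact Set.infinite_univ
    · intro w hw
      have hw0 : 0 < w 0 := hw 0 (Set.mem_univ _)
      have hw1 : 0 < w 1 := hw 1 (Set.mem_univ _)
      rw [map_zero, map_sum]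
      -- the point
      have h1 := QZ_eval S d N (w 2 / w 1) (Sum.elim (fun _ => 0) (fun q =>
        ![1 / w 0, w 1 / w 0, w 1 / w 0 * (w 1 - w 3)] q.2))
      rw [hQ, MvPolynomial.eval₂_zero] at h1
      simp only [Sum.elim_inr, Matrix.cons_val_zero, Matrix.cons_val_one, Matrix.cons_val] at h1
      have ha0 : (1 / w 0) ≠ 0 := by positivity
      have ha1 : (w 1 / w 0) ≠ 0 := by positivity
      have hs : ∑ e ∈ S, d e * (w 2 / w 1) ^ (e 2) * (1 / w 0) ^ (N - e 0 - e 1 - e 2 - e 3) *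
          (w 1 / w 0) ^ (N + e 1 + e 2 - e 3) *
          ((w 1 / w 0) ^ 2 - w 1 / w 0 * (w 1 - w 3) * (1 / w 0)) ^ (e 3) =
          (1 / w 0) ^ N * (w 1 / w 0) ^ N *
            ∑ e ∈ S, MvPolynomial.eval w (MvPolynomial.monomial e (d e)) := by
        rw [Finset.mul_sum]
        refine Finset.sum_congr rfl fun e he => ?_
        have hh := term_eq (1 / w 0) (w 1 / w 0) (w 1 / w 0 * (w 1 - w 3)) (w 2 / w 1) ha0 ha1 N
          (e 0) (e 1) (e 2) (e 3) (hN e he)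
        have q0 : 1 / (1 / w 0) = w 0 := by field_simp
        have q1 : w 1 / w 0 / (1 / w 0) = w 1 := by field_simp
        have q2 : w 2 / w 1 * (w 1 / w 0) / (1 / w 0) = w 2 := by field_simp
        have q3 : w 1 / w 0 * (w 1 - w 3) / (w 1 / w 0) = w 1 - w 3 := by field_simp
        rw [q0, q1, q2, q3, sub_sub_cancel] at hh
        have hm : MvPolynomial.eval w (MvPolynomial.monomial e (d e)) =
            d e * (w 0 ^ (e 0) * w 1 ^ (e 1) * w 2 ^ (e 2) * w 3 ^ (e 3)) := by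
          rw [MvPolynomial.eval_monomial, Finsupp.prod_fintype _ _ (by simp), Fin.prod_univ_four]
        rw [hm]
        linear_combination (d e) * hh
      rw [hs] at h1
      have hp : (1 / w 0) ^ N * (w 1 / w 0) ^ N ≠ 0 :=
        mul_ne_zero (pow_ne_zero _ ha0) (pow_ne_zero _ ha1)
      exact (mul_eq_zero.1 h1.symm).resolve_left hp
  intro e he
  classical
  have h3 := congrArg (MvPolynomial.coeff e) hR
  rw [MvPolynomial.coeff_sum, Finset.sum_eq_single e, MvPolynomial.coeff_monomial, if_pos rfl,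
    MvPolynomial.coeff_zero] at h3
  · exact h3
  · intro b _ hb
    rw [MvPolynomial.coeff_monomial, if_neg hb]
  · intro h
    exact absurd he h

theorem t_zd : Pool.Agent.Y120.J.T_ZD := by
  intro Y P hP
  set d : (Fin 4 →₀ ℕ) → ℂ := fun e => P.coeff e * Complex.I ^ (e 1) * (-1) ^ (e 2) *
    (Complex.I / 2) ^ (e 3) with hd
  have hsum : ∀ y : ℝ, Y ≤ y → ∑ e ∈ P.support, d e * (((1 / g0 y) ^ (e 0) *
      (g1 y / g0 y) ^ (e 1) * (y * g1 y / g0 y) ^ (e 2) *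
      (g1 y / g0 y - g2 y / g1 y) ^ (e 3) : ℝ) : ℂ) = 0 := by
    intro y hy
    have h := hP y hy
    rw [MvPolynomial.eval_eq'] at h
    rw [← h]
    refine Finset.sum_congr rfl fun e _ => ?_
    rw [Fin.prod_univ_four]
    simp only [Matrix.cons_val_zero, Matrix.cons_val_one, Matrix.cons_val, hd]
    push_cast
    rw [mul_pow, mul_pow, neg_pow ((y : ℂ) * (g1 y : ℂ) / (g0 y : ℂ))]
    ring
  have hre : ∀ e ∈ P.support, (d e).re = 0 := by
    refine real_zero P.support (fun e => (d e).re) ?_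
    filter_upwards [eventually_ge_atTop Y] with y hy
    have h := congrArg Complex.re (hsum y hy)
    rw [Complex.re_sum] at h
    simpa only [Complex.re_mul_ofReal, Complex.zero_re] using h
  have him : ∀ e ∈ P.support, (d e).im = 0 := by
    refine real_zero P.support (fun e => (d e).im) ?_
    filter_upwards [eventually_ge_atTop Y] with y hy
    have h := congrArg Complex.im (hsum y hy)
    rw [Complex.im_sum] at h
    simpa only [Complex.im_mul_ofReal, Complex.zero_im] using h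
  by_contra hne
  obtain ⟨e, he⟩ := MvPolynomial.support_nonempty.2 hne
  have h0 : d e = 0 := Complex.ext (hre e he) (him e he)
  have hI : Complex.I ≠ 0 := Complex.I_ne_zero
  have hc : P.coeff e ≠ 0 := MvPolynomial.mem_support_iff.1 he
  have : d e ≠ 0 := by
    simp only [hd]
    refine mul_ne_zero (mul_ne_zero (mul_ne_zero hc (pow_ne_zero _ hI)) (pow_ne_zero _ (by simp)))
      (pow_ne_zero _ (div_ne_zero hI (by norm_num)))
  exact this h0

end Pool.Agent.Y508.J
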